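import Pool.Agent.Q206.SO.Dec
import Pool.Agent.Q206.SO.JRoot
import Pool.Agent.Q206.SO.JCoef
import Pool.Agent.Q206.SO.JOrd
import Pool.Agent.Q206.SO.JMat
import Pool.Agent.Q206.SO.JTor
import Pool.Agent.Q206.SO.JPig
import Pool.Agent.Q206.SO.JPump
import Pool.Agent.Q206.SO.JStep
import Pool.Agent.Q206.SO.JWord
import Pool.Agent.Q206.SO.JComp
import Pool.Agent.Q206.SO.JValc
import Pool.Agent.Q110.SO.JVali

/-!
# It is decidable whether an abelian cellular automaton has a soliton
-/

namespace Pool.Agent.Results.MP_5c31ca_lc.SolitonsDecidable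

open Pool.Agent.Q206.SO

/-- `I` describes some abelian cellular automaton which has a soliton. -/
def HasSolitonCode (I : Input) : Prop :=
  ∃ (A : Type) (_ : AddCommGroup A) (n : ℕ) (e : Fin n ≃ A) (r : ℕ)
    (h : Fin (2 * r + 1) → (A →+ A)), I = code e h ∧ HasSoliton (ca h)

theorem result :
    -- the descriptions of abelian cellular automata form a computable set
    ComputablePred IsCode ∧
    -- so do the descriptions of those which have a soliton
    ComputablePred HasSolitonCode ∧
    -- every description of an automaton (for every numbering of its group) gives its answer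
    (∀ (A : Type) [AddCommGroup A] (n : ℕ) (e : Fin n ≃ A) (r : ℕ)
      (h : Fin (2 * r + 1) → (A →+ A)), HasSolitonCode (code e h) ↔ HasSoliton (ca h)) ∧
    -- the criterion
    ∀ (A : Type) [AddCommGroup A] [Finite A] (r : ℕ) (h : Fin (2 * r + 1) → (A →+ A)),
      HasSoliton (ca h) ↔ ∃ z : ℤ → A, z ≠ 0 ∧ {i | z i ≠ 0}.Finite ∧
        (ca h z = 0 ∨ ∃ s : ℤ, ∀ i, (ca h)^[(Nat.card A).factorial] z i = z (i - s)) := by
  have hdec : ∀ (A : Type) [AddCommGroup A] (n : ℕ) (e : Fin n ≃ A) (r : ℕ)
      (h : Fin (2 * r + 1) → (A →+ A)), dec (code e h) = true ↔ HasSoliton (ca h) := by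
    intro A _ n e r h
    have : Finite A := Finite.of_equiv _ e
    have hn : Nat.card A = n := by
      rw [← Nat.card_congr e, Nat.card_eq_fintype_card, Fintype.card_fin]
    rw [crit2 root job_coef job_ord mat tor job_pig job_pump A r h, hn]
    exact dec_iff e h step word_proof
  have hcode : ∀ I, HasSolitonCode I ↔ (valid I && dec I) = true := by
    intro I
    rw [Bool.and_eq_true, Pool.Agent.Q110.SO.vali I]
    constructor
    · rintro ⟨A, _, n, e, r, h, rfl, hs⟩
      exact ⟨⟨A, _, n, e, r, h, rfl⟩, (hdec A n e r h).mpr hs⟩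
    · rintro ⟨⟨A, _, n, e, r, h, rfl⟩, hs⟩
      exact ⟨A, _, n, e, r, h, rfl, (hdec A n e r h).mp hs⟩
  refine ⟨?_, ?_, ?_, ?_⟩
  · refine ComputablePred.computable_iff.mpr ⟨valid, valc, ?_⟩
    funext I
    exact propext (Pool.Agent.Q110.SO.vali I).symm
  · refine ComputablePred.computable_iff.mpr ⟨fun I => valid I && dec I,
      Primrec.and.to_comp.comp valc job_comp, ?_⟩
    funext I
    exact propext (hcode I)
  · intro A _ n e r h
    rw [hcode, Bool.and_eq_true, hdec A n e r h]
    exact ⟨fun hs => hs.2, fun hs => ⟨(Pool.Agent.Q110.SO.vali _).mpr ⟨A, _, n, e, r, h, rfl⟩, hs⟩⟩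
  · intro A _ _ r h
    rw [crit root job_coef job_ord mat tor job_pig A r h]
    simp only [funext_iff (f := (ca h)^[(Nat.card A).factorial] _), sh]

end Pool.Agent.Results.MP_5c31ca_lc.SolitonsDecidable
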